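import Pool.Agent.Helper84.FX.StT

set_option autoImplicit false

/-!
# Project FX, chapter T, module HEP: homotopy extension for cubes
-/

namespace Pool.Agent.Helper3.FX

open Pool.Agent.Helper84.FX Set

private theorem isClosed_Cb (n : ℕ) : IsClosed (Cb n) := by
  unfold Cb
  simp only [setOf_forall]
  exact isClosed_iInter fun i => (isClosed_le continuous_const (continuous_apply i)).inter
    (isClosed_le (continuous_apply i) continuous_const)

private theorem isClosed_Bd (n : ℕ) : IsClosed (Bd n) := by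
  have h : Bd n = Cb n ∩ ⋃ i : Fin n, {u : Fin n → ℝ | u i = 0 ∨ u i = 1} := by
    ext u
    simp [Bd]
  rw [h]
  refine (isClosed_Cb n).inter (isClosed_iUnion_of_finite fun i => ?_)
  exact (isClosed_eq (continuous_apply i) continuous_const).union
    (isClosed_eq (continuous_apply i) continuous_const)

private theorem hepOne (hRET : StRET) (F : Type) [TopologicalSpace F] (Y : Set F) (n : ℕ)
    (b : (Fin n → ℝ) → F) (K : ℝ × (Fin n → ℝ) → F) (hb : Mp (Cb n) Y b)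
    (hK : Mp (II ×ˢ Bd n) Y K) (h0 : ∀ u ∈ Bd n, K (0, u) = b u) :
    ∃ H : ℝ × (Fin n → ℝ) → F, Mp (II ×ˢ Cb n) Y H ∧
      (∀ u ∈ Cb n, H (0, u) = b u) ∧ ∀ s ∈ II, ∀ u ∈ Bd n, H (s, u) = K (s, u) := by
  classical
  obtain ⟨r, hrc, hrm, hr0, hrs⟩ := hRET n
  set g : ℝ × (Fin n → ℝ) → F := fun q => if q.1 = 0 then b q.2 else K q with hg
  have hg1 : ∀ q : ℝ × (Fin n → ℝ), q.1 = 0 → g q = b q.2 := fun q hq => by
    simp only [hg, if_pos hq]
  have hg2 : ∀ q ∈ II ×ˢ Bd n, g q = K q := by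
    rintro ⟨s, u⟩ ⟨hs, hu⟩
    by_cases h : s = 0
    · subst h
      simp only [hg, if_true]
      exact (h0 u hu).symm
    · simp only [hg, if_neg h]
  have hS1 : IsClosed {q : ℝ × (Fin n → ℝ) | q.1 = 0 ∧ q.2 ∈ Cb n} :=
    (isClosed_eq continuous_fst continuous_const).inter
      ((isClosed_Cb n).preimage continuous_snd)
  have hS2 : IsClosed (II ×ˢ Bd n) := isClosed_Icc.prod (isClosed_Bd n)
  have hgc : ContinuousOn g ({q : ℝ × (Fin n → ℝ) | q.1 = 0 ∧ q.2 ∈ Cb n} ∪ II ×ˢ Bd n) := by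
    refine ContinuousOn.union_of_isClosed ?_ ?_ hS1 hS2
    · refine ContinuousOn.congr (f := fun q => b q.2) ?_ (fun q hq => hg1 q hq.1)
      exact hb.1.comp continuous_snd.continuousOn (fun q hq => hq.2)
    · exact hK.1.congr hg2
  have hgm : MapsTo g ({q : ℝ × (Fin n → ℝ) | q.1 = 0 ∧ q.2 ∈ Cb n} ∪ II ×ˢ Bd n) Y := by
    rintro q (hq | hq)
    · rw [hg1 q hq.1]
      exact hb.2 hq.2
    · rw [hg2 q hq]
      exact hK.2 hq
  refine ⟨g ∘ r, ⟨hgc.comp hrc hrm, hgm.comp hrm⟩, fun u hu => ?_, fun s hs u hu => ?_⟩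
  · show g (r (0, u)) = b u
    rw [hr0 u hu, hg1 _ rfl]
  · show g (r (s, u)) = K (s, u)
    rw [hrs s hs u hu]
    exact hg2 _ ⟨hs, hu⟩

private theorem revMp {F : Type} [TopologicalSpace F] {Y : Set F} {n : ℕ} {A : Set (Fin n → ℝ)}
    {K : ℝ × (Fin n → ℝ) → F} (hK : Mp (II ×ˢ A) Y K) :
    Mp (II ×ˢ A) Y (fun q => K (1 - q.1, q.2)) := by
  have hm : MapsTo (fun q : ℝ × (Fin n → ℝ) => (1 - q.1, q.2)) (II ×ˢ A) (II ×ˢ A) := by
    rintro ⟨s, u⟩ ⟨hs, hu⟩
    simp only [II, mem_Icc] at hs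
    refine ⟨?_, hu⟩
    show 1 - s ∈ Icc (0 : ℝ) 1
    rw [mem_Icc]
    constructor <;> linarith [hs.1, hs.2]
  have hc : Continuous (fun q : ℝ × (Fin n → ℝ) => (1 - q.1, q.2)) := by fun_prop
  exact ⟨hK.1.comp hc.continuousOn hm, hK.2.comp hm⟩

theorem hHEP : StRET → StHEP := by
  intro hRET F _ Y n b K hb hK
  refine ⟨hepOne hRET F Y n b K hb hK, fun h1 => ?_⟩
  obtain ⟨H, hH, hH0, hHs⟩ := hepOne hRET F Y n b (fun q => K (1 - q.1, q.2)) hb (revMp hK)
    (fun u hu => by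
      show K (1 - 0, u) = b u
      rw [sub_zero]
      exact h1 u hu)
  refine ⟨fun q => H (1 - q.1, q.2), revMp hH, fun u hu => ?_, fun s hs u hu => ?_⟩
  · show H (1 - 1, u) = b u
    rw [sub_self]
    exact hH0 u hu
  · show H (1 - s, u) = K (s, u)
    have hs' : (1 - s) ∈ II := by
      simp only [II, mem_Icc] at hs ⊢
      constructor <;> linarith [hs.1, hs.2]
    rw [hHs (1 - s) hs' u hu]
    show K (1 - (1 - s), u) = K (s, u)
    rw [sub_sub_cancel]

end Pool.Agent.Helper3.FX
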