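import Pool.Agent.Helper9.FX.StP

set_option autoImplicit false

/-!
# Project FX, section T4, module PPW: the pieces of `P`
-/

namespace Pool.Agent.Helper3.FX

open Set Complex Pool.Agent.Helper9.FX
open Pool.Agent.Helper84.FX (Mp WE Htp II StHEQ)
open Pool.Agent.Helper72.FX (nu)

private theorem htp_id {F : Type} [TopologicalSpace F] (Y : Set F) (f : F → F) (hf : ∀ y, f y = y) :
    Htp Y Y f id := by
  refine ⟨fun q => q.2, ⟨continuous_snd.continuousOn, fun q hq => hq.2⟩, fun x _ => (hf x).symm,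
    fun x _ => rfl⟩

/-- the homotopy with last coordinate given by `e` -/
private noncomputable def Hm (e : ℝ → ℝ → ℝ) (q : ℝ × EP) : EP :=
  (((min 1 (2 * q.1) : ℝ) : ℂ) * q.2.1, ((min 1 (2 * q.1) : ℝ) : ℂ) * q.2.2.1, q.2.2.2.1,
    e (max 0 (2 * q.1 - 1)) q.2.2.2.2)

private theorem Hm_cont (e : ℝ → ℝ → ℝ) (he : Continuous fun p : ℝ × ℝ => e p.1 p.2) :
    Continuous (Hm e) := by
  unfold Hm
  have h1 : Continuous fun q : ℝ × EP => ((min 1 (2 * q.1) : ℝ) : ℂ) := by fun_prop
  have h2 : Continuous fun q : ℝ × EP => e (max 0 (2 * q.1 - 1)) q.2.2.2.2 :=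
    he.comp (f := fun q : ℝ × EP => (max 0 (2 * q.1 - 1), q.2.2.2.2)) (by fun_prop)
  exact (h1.mul (by fun_prop)).prodMk ((h1.mul (by fun_prop)).prodMk
    ((by fun_prop : Continuous fun q : ℝ × EP => q.2.2.2.1).prodMk h2))

theorem hPPW (hHEQ : StHEQ) : StPPW := by
  intro U
  have hfc : Continuous (fun q : EP => q.2.2.1) := by fun_prop
  constructor
  · refine hHEQ EP ℂ (PU U ∩ R1) U (fun q => q.2.2.1) (fun t => ((0 : ℂ), (0 : ℂ), t, (0 : ℝ)))
      ⟨hfc.continuousOn, fun q hq => hq.1.1⟩ ⟨?_, ?_⟩ ?_ (htp_id U _ fun y => rfl)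
    · exact (by fun_prop : Continuous fun t : ℂ => ((0 : ℂ), (0 : ℂ), t, (0 : ℝ))).continuousOn
    · intro t ht
      refine ⟨⟨ht, le_rfl, zero_le_one, fun h => absurd h (lt_irrefl _)⟩, ?_⟩
      show (0 : ℝ) < 1
      exact zero_lt_one
    · refine ⟨Hm fun c r => c * r, ⟨(Hm_cont _ (by fun_prop)).continuousOn, ?_⟩, ?_, ?_⟩
      · rintro ⟨h, a, b, t, r⟩ ⟨⟨h0, h1⟩, ⟨ht, hr0, hr1, hnu⟩, hr⟩
        simp only at h0 h1 ht hr0 hr1 hnu
        have hr' : r < 1 := hr
        have hc0 : (0 : ℝ) ≤ max 0 (2 * h - 1) := le_max_left _ _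
        have hc1 : max 0 (2 * h - 1) ≤ (1 : ℝ) := max_le zero_le_one (by linarith)
        have hl : max 0 (2 * h - 1) * r ≤ r := by
          calc max 0 (2 * h - 1) * r ≤ 1 * r := mul_le_mul_of_nonneg_right hc1 hr0
            _ = r := one_mul r
        refine ⟨⟨ht, mul_nonneg hc0 hr0, hl.trans hr1, fun hp _ => ?_⟩, lt_of_le_of_lt hl hr'⟩
        have hp' : 0 < max 0 (2 * h - 1) * r := hp
        have hcp : 0 < max 0 (2 * h - 1) := by
          rcases hc0.lt_or_eq with h' | h'
          · exact h'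
          · rw [← h', zero_mul] at hp'
            exact absurd hp' (lt_irrefl _)
        have hrp : 0 < r := by
          rcases hr0.lt_or_eq with h' | h'
          · exact h'
          · rw [← h', mul_zero] at hp'
            exact absurd hp' (lt_irrefl _)
        have hh : 1 < 2 * h := by
          rcases lt_max_iff.1 hcp with h' | h'
          · exact absurd h' (lt_irrefl _)
          · linarith
        have hm : min 1 (2 * h) = (1 : ℝ) := min_eq_left hh.le
        show nu (((min 1 (2 * h) : ℝ) : ℂ) * a) (((min 1 (2 * h) : ℝ) : ℂ) * b) t = 0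
        rw [hm, Complex.ofReal_one, one_mul, one_mul]
        exact hnu hrp hr'
      · rintro ⟨a, b, t, r⟩ -
        have e1 : min 1 (2 * (0 : ℝ)) = 0 := by norm_num
        have e2 : max 0 (2 * (0 : ℝ) - 1) = 0 := by norm_num
        simp only [Hm, Function.comp]
        rw [e1, e2]
        simp
      · rintro ⟨a, b, t, r⟩ -
        have e1 : min 1 (2 * (1 : ℝ)) = 1 := by norm_num
        have e2 : max 0 (2 * (1 : ℝ) - 1) = 1 := by norm_num
        simp only [Hm]
        rw [e1, e2]
        simp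
  · refine hHEQ EP ℂ (PU U ∩ R2) U (fun q => q.2.2.1) (fun t => ((0 : ℂ), (0 : ℂ), t, (1 : ℝ)))
      ⟨hfc.continuousOn, fun q hq => hq.1.1⟩ ⟨?_, ?_⟩ ?_ (htp_id U _ fun y => rfl)
    · exact (by fun_prop : Continuous fun t : ℂ => ((0 : ℂ), (0 : ℂ), t, (1 : ℝ))).continuousOn
    · intro t ht
      refine ⟨⟨ht, zero_le_one, le_rfl, fun _ h => absurd h (lt_irrefl _)⟩, ?_⟩
      show (0 : ℝ) < 1
      exact zero_lt_one
    · refine ⟨Hm fun c r => 1 - c * (1 - r), ⟨(Hm_cont _ (by fun_prop)).continuousOn, ?_⟩, ?_, ?_⟩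
      · rintro ⟨h, a, b, t, r⟩ ⟨⟨h0, h1⟩, ⟨ht, hr0, hr1, hnu⟩, hr⟩
        simp only at h0 h1 ht hr0 hr1 hnu
        have hr' : 0 < r := hr
        have hc0 : (0 : ℝ) ≤ max 0 (2 * h - 1) := le_max_left _ _
        have hc1 : max 0 (2 * h - 1) ≤ (1 : ℝ) := max_le zero_le_one (by linarith)
        have hs0 : 0 ≤ 1 - r := by linarith
        have hl : max 0 (2 * h - 1) * (1 - r) ≤ 1 - r := by
          calc max 0 (2 * h - 1) * (1 - r) ≤ 1 * (1 - r) := mul_le_mul_of_nonneg_right hc1 hs0
            _ = 1 - r := one_mul _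
        have hn : 0 ≤ max 0 (2 * h - 1) * (1 - r) := mul_nonneg hc0 hs0
        refine ⟨⟨ht, ?_, ?_, fun _ hp => ?_⟩, ?_⟩
        · show 0 ≤ 1 - max 0 (2 * h - 1) * (1 - r)
          linarith
        · show 1 - max 0 (2 * h - 1) * (1 - r) ≤ 1
          linarith
        · have hp' : 1 - max 0 (2 * h - 1) * (1 - r) < 1 := hp
          have hp2 : 0 < max 0 (2 * h - 1) * (1 - r) := by linarith
          have hcp : 0 < max 0 (2 * h - 1) := by
            rcases hc0.lt_or_eq with h' | h'
            · exact h'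
            · rw [← h', zero_mul] at hp2
              exact absurd hp2 (lt_irrefl _)
          have hrp : 0 < 1 - r := by
            rcases hs0.lt_or_eq with h' | h'
            · exact h'
            · rw [← h', mul_zero] at hp2
              exact absurd hp2 (lt_irrefl _)
          have hh : 1 < 2 * h := by
            rcases lt_max_iff.1 hcp with h' | h'
            · exact absurd h' (lt_irrefl _)
            · linarith
          have hm : min 1 (2 * h) = (1 : ℝ) := min_eq_left hh.le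
          show nu (((min 1 (2 * h) : ℝ) : ℂ) * a) (((min 1 (2 * h) : ℝ) : ℂ) * b) t = 0
          rw [hm, Complex.ofReal_one, one_mul, one_mul]
          exact hnu hr' (by linarith)
        · show 0 < 1 - max 0 (2 * h - 1) * (1 - r)
          linarith
      · rintro ⟨a, b, t, r⟩ -
        have e1 : min 1 (2 * (0 : ℝ)) = 0 := by norm_num
        have e2 : max 0 (2 * (0 : ℝ) - 1) = 0 := by norm_num
        simp only [Hm, Function.comp]
        rw [e1, e2]
        simp
      · rintro ⟨a, b, t, r⟩ -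
        have e1 : min 1 (2 * (1 : ℝ)) = 1 := by norm_num
        have e2 : max 0 (2 * (1 : ℝ) - 1) = 1 := by norm_num
        simp only [Hm]
        rw [e1, e2]
        simp

end Pool.Agent.Helper3.FX
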