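import Pool.Agent.Helper72.FX.StK

set_option autoImplicit false

/-!
# Project FX, chapter K, module PTO: torsion facts of the pencil
-/

namespace Pool.Agent.Helper3.FX

open Polynomial Pool.Agent.Helper72.FX

/-- elementwise power torsion of a finite module is power torsion -/
private theorem unif {R N : Type} [CommRing R] [AddCommGroup N] [Module R N] (hN : Module.Finite R N)
    (e : R) (h : ∀ y : N, ∃ k : ℕ, e ^ k • y = 0) : ∃ k : ℕ, ∀ y : N, e ^ k • y = 0 := by
  classical
  obtain ⟨S, hS⟩ := hN.fg_top
  choose k hk using h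
  refine ⟨S.sup k, fun y => ?_⟩
  have hy : y ∈ Submodule.span R (S : Set N) := by rw [hS]; exact Submodule.mem_top
  induction hy using Submodule.span_induction with
  | mem x hx =>
    have h1 : k x ≤ S.sup k := Finset.le_sup (f := k) hx
    obtain ⟨l, hl⟩ := Nat.exists_eq_add_of_le h1
    rw [hl, pow_add, mul_comm, mul_smul, hk, smul_zero]
  | zero => exact smul_zero _
  | add x z _ _ hx hz => rw [smul_add, hx, hz, add_zero]
  | smul a x _ hx => rw [smul_comm, hx, smul_zero]

section pm

variable {B M : Type} [CommRing B] [AddCommGroup M] [Module B M]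

private theorem C_smul_coeff (a : B) (g : PolynomialModule B M) (n : ℕ) :
    ((C a : B[X]) • g).coeff n = a • g.coeff n := by
  rw [← monomial_zero_left, PolynomialModule.monomial_smul_apply]
  simp

private theorem C_smul_single (a : B) (i : ℕ) (m : M) :
    (C a : B[X]) • PolynomialModule.single B i m = PolynomialModule.single B i (a • m) := by
  rw [← monomial_zero_left, PolynomialModule.monomial_smul_single, zero_add]

private theorem X_pow_smul_single (i : ℕ) (m : M) :
    (X ^ i : B[X]) • PolynomialModule.single B 0 m = PolynomialModule.single B i m := by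
  rw [← monomial_one_right_eq_X_pow, PolynomialModule.monomial_smul_single, add_zero, one_smul]

/-- a polynomial is the sum of its terms -/
private theorem eq_sum (g : PolynomialModule B M) : ∃ d : ℕ,
    g = ∑ i ∈ Finset.range (d + 1), PolynomialModule.single B i (g.coeff i) := by
  obtain ⟨d, hd⟩ := g.coeff.support.bddAbove
  refine ⟨d, ?_⟩
  ext n
  rw [PolynomialModule.coeff_sum, Finsupp.finset_sum_apply]
  simp only [PolynomialModule.coeff_single, Finsupp.single_apply]
  rw [Finset.sum_ite_eq']
  split_ifs with h
  · rfl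
  · by_contra hne
    apply h
    rw [Finset.mem_range]
    exact Nat.lt_succ_of_le (hd (Finsupp.mem_support_iff.2 hne))

private theorem kn_torsion (E s : B) (g : PolynomialModule B M) (hg : pel E s • g = 0) :
    ∃ k : ℕ, (C E : B[X]) ^ k • g = 0 := by
  obtain ⟨d, hd⟩ := g.coeff.support.bddAbove
  have hz : ∀ n, d < n → g.coeff n = 0 := by
    intro n hn
    by_contra hne
    exact absurd (hd (Finsupp.mem_support_iff.2 hne)) (not_le.2 hn)
  have hrec : ∀ n, E • g.coeff n = s • g.coeff (n + 1) := by
    intro n
    have h1 := pm_smul_coeff_succ E s g n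
    have h2 : ((C E * X - C s : B[X]) • g) = 0 := hg
    rw [h2] at h1
    exact (sub_eq_zero.1 h1.symm)
  have key : ∀ k n, d + 1 ≤ n + k → E ^ k • g.coeff n = 0 := by
    intro k
    induction k with
    | zero =>
      intro n hn
      rw [pow_zero, one_smul]
      exact hz n (by omega)
    | succ k ih =>
      intro n hn
      rw [pow_succ, mul_smul, hrec n, smul_comm, ih (n + 1) (by omega), smul_zero]
  refine ⟨d + 1, ?_⟩
  rw [← C_pow]
  ext n
  rw [C_smul_coeff, key (d + 1) n (by omega)]
  rfl

private theorem red (E s : B) (d i : ℕ) (hi : i ≤ d) (x : M) :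
    (C E : B[X]) ^ d • PolynomialModule.single B i x -
      PolynomialModule.single B 0 ((E ^ (d - i) * s ^ i) • x) ∈
      LinearMap.range (LinearMap.lsmul B[X] (PolynomialModule B M) (pel E s)) := by
  obtain ⟨q, hq⟩ := sub_dvd_pow_sub_pow (C E * X : B[X]) (C s) i
  have h1 : (C E : B[X]) ^ d • PolynomialModule.single B i x -
      PolynomialModule.single B 0 ((E ^ (d - i) * s ^ i) • x) =
      pel E s • ((C E ^ (d - i) * q) • PolynomialModule.single B 0 x) := by
    rw [← X_pow_smul_single i x, ← C_smul_single, smul_smul, smul_smul, ← sub_smul]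
    congr 1
    have h2 : (C E : B[X]) ^ d = C E ^ (d - i) * C E ^ i := by
      rw [← pow_add, Nat.sub_add_cancel hi]
    rw [h2, C_mul, C_pow, C_pow]
    have h3 : (C E : B[X]) ^ (d - i) * C E ^ i * X ^ i - C E ^ (d - i) * C s ^ i =
        C E ^ (d - i) * ((C E * X) ^ i - C s ^ i) := by
      rw [mul_pow]; ring
    rw [h3, hq]
    unfold pel
    ring
  rw [h1]
  exact ⟨_, rfl⟩

end pm

theorem hPTO : StPTO := by
  intro hPMX B _ _ I E s
  -- finiteness of the polynomial module
  have hfin : ∀ (M : Type) [AddCommGroup M] [Module B M], Module.Finite B M →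
      Module.Finite B[X] (PolynomialModule B M) := fun M _ _ h =>
    (hPMX B M M M LinearMap.id LinearMap.id).2.2.2.1 h
  have hkilM : ∀ (M : Type) [AddCommGroup M] [Module B M], kil I M →
      kil (I.map C) (PolynomialModule B M) := fun M _ _ h =>
    (hPMX B M M M LinearMap.id LinearMap.id).2.2.2.2.1 I h
  refine ⟨?_, ?_, ?_⟩
  · intro M _ _ hM hI
    have := hfin M hM
    have hN : IsNoetherian B[X] (PolynomialModule B M) := isNoetherian_of_isNoetherianRing_of_finite _ _
    have hf : Module.Finite B[X] (Kn (pel E s) (PolynomialModule B M)) := inferInstance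
    refine ⟨hf, ?_, ?_⟩
    · refine kil_sup ?_ (kil_span ?_)
      · exact (gd_kil (I.map C)).inj _ _ (LinearMap.ker (LinearMap.lsmul B[X]
          (PolynomialModule B M) (pel E s))).subtype (Submodule.injective_subtype _) (hkilM M hI)
      · intro y
        exact Subtype.ext y.2
    · refine unif hf (C E) fun y => ?_
      obtain ⟨k, hk⟩ := kn_torsion E s y.1 y.2
      exact ⟨k, Subtype.ext hk⟩
  · intro M _ _ hM hI
    have := hfin M hM
    obtain ⟨hI1, k, hk⟩ := hI
    refine ⟨inferInstance, ?_, k, ?_⟩
    · refine kil_sup ?_ (kil_span ?_)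
      · exact (gd_kil (I.map C)).surj _ _ (Submodule.mkQ _) (Submodule.mkQ_surjective _)
          (hkilM M hI1)
      · intro y
        obtain ⟨g, rfl⟩ := Submodule.mkQ_surjective _ y
        rw [← map_smul]
        exact (Submodule.Quotient.mk_eq_zero _).2 ⟨g, rfl⟩
    · intro y
      obtain ⟨g, rfl⟩ := Submodule.mkQ_surjective _ y
      rw [← map_smul, (hPMX B M M M LinearMap.id LinearMap.id).2.2.2.2.2 E k hk g, map_zero]
  · intro Q _ _ _ _ M hQ hM
    obtain ⟨hMfg, -⟩ := hM
    have hMf : Module.Finite B M := Module.Finite.iff_fg.2 hMfg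
    have := hfin M hMf
    have hN : IsNoetherian B[X] (PolynomialModule B M) := isNoetherian_of_isNoetherianRing_of_finite _ _
    have hC : ∀ (a : B) (q : Q), (C a : B[X]) • q = a • q := fun a q => by
      rw [← Polynomial.algebraMap_eq, algebraMap_smul]
    have hIM : kil I M := by
      intro x hx y
      apply Subtype.ext
      show x • (y : Q) = 0
      rw [← hC]
      exact hQ _ (Ideal.mem_sup_left (Ideal.mem_map_of_mem C hx)) _
    have hpi : ∀ q : Q, (pel E s : B[X]) • q = 0 := fun q =>
      hQ _ (Ideal.mem_sup_right (Ideal.mem_span_singleton_self _)) _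
    have hEX : ∀ q : Q, (C E * X : B[X]) • q = s • q := by
      intro q
      have h1 := hpi q
      unfold pel at h1
      rw [sub_smul, sub_eq_zero] at h1
      rw [h1, hC]
    have hf : Module.Finite B[X] (KM E s M) := inferInstance
    refine ⟨hf, ?_, ?_⟩
    · refine kil_sup ?_ (kil_span ?_)
      · exact (gd_kil (I.map C)).surj _ _ (Submodule.mkQ _) (Submodule.mkQ_surjective _)
          ((gd_kil (I.map C)).inj _ _ (LinearMap.ker (Phi M)).subtype
            (Submodule.injective_subtype _) (hkilM M hIM))
      · intro y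
        obtain ⟨g, rfl⟩ := Submodule.mkQ_surjective _ y
        rw [← map_smul]
        exact (Submodule.Quotient.mk_eq_zero _).2 ⟨g.1, rfl⟩
    · refine unif hf (C E) fun y => ?_
      obtain ⟨g, rfl⟩ := Submodule.mkQ_surjective _ y
      obtain ⟨d, hd⟩ := eq_sum g.1
      refine ⟨d, ?_⟩
      rw [← map_smul]
      refine (Submodule.Quotient.mk_eq_zero _).2 ?_
      rw [Submodule.mem_comap]
      show (C E : B[X]) ^ d • g.1 ∈ _
      set m : M := ∑ i ∈ Finset.range (d + 1), (E ^ (d - i) * s ^ i) • g.1.coeff i with hm
      have hm0 : m = 0 := by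
        apply Subtype.ext
        show ((m : M) : Q) = 0
        have h1 : Phi M g.1 = 0 := g.2
        rw [hd, map_sum] at h1
        have h2 : ∀ i, Phi M (PolynomialModule.single B i (g.1.coeff i)) =
            (X ^ i : B[X]) • ((g.1.coeff i : M) : Q) := fun i => plift_single M.subtype i _
        have h3 : ((m : M) : Q) = ∑ i ∈ Finset.range (d + 1),
            (E ^ (d - i) * s ^ i) • ((g.1.coeff i : M) : Q) := by
          rw [hm]
          simp
        have h4 : ∀ i (q : Q), (C E * X : B[X]) ^ i • q = s ^ i • q := by
          intro i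
          induction i with
          | zero => intro q; simp
          | succ i ih =>
            intro q
            rw [pow_succ, mul_smul, hEX, ih, ← mul_smul, ← pow_succ]
        have h5 : ∀ i ∈ Finset.range (d + 1), (E ^ (d - i) * s ^ i) • ((g.1.coeff i : M) : Q) =
            (C E : B[X]) ^ d • ((X ^ i : B[X]) • ((g.1.coeff i : M) : Q)) := by
          intro i hi
          have hi' : i ≤ d := Nat.lt_succ_iff.1 (Finset.mem_range.1 hi)
          rw [mul_smul, ← h4 i, ← hC, C_pow, smul_smul, smul_smul]
          congr 1
          rw [mul_pow, ← mul_assoc, ← pow_add, Nat.sub_add_cancel hi']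
        rw [h3, Finset.sum_congr rfl h5, ← Finset.smul_sum]
        have h6 : ∑ i ∈ Finset.range (d + 1), (X ^ i : B[X]) • ((g.1.coeff i : M) : Q) = 0 := by
          rw [← h1]
          exact Finset.sum_congr rfl fun i _ => (h2 i).symm
        rw [h6, smul_zero]
      have h7 : (C E : B[X]) ^ d • g.1 = ∑ i ∈ Finset.range (d + 1),
          ((C E : B[X]) ^ d • PolynomialModule.single B i (g.1.coeff i) -
            PolynomialModule.single B 0 ((E ^ (d - i) * s ^ i) • g.1.coeff i)) := by
        rw [Finset.sum_sub_distrib, ← Finset.smul_sum, ← hd]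
        have h8 : ∑ i ∈ Finset.range (d + 1),
            PolynomialModule.single B 0 ((E ^ (d - i) * s ^ i) • g.1.coeff i) =
            PolynomialModule.single B 0 m := by
          rw [hm]
          exact (map_sum (PolynomialModule.lsingle B 0) _ _).symm
        rw [h8, hm0, PolynomialModule.single_zero, sub_zero]
      rw [h7]
      exact Submodule.sum_mem _ fun i hi =>
        red E s d i (Nat.lt_succ_iff.1 (Finset.mem_range.1 hi)) _

end Pool.Agent.Helper3.FX
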